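import Mathlib

set_option autoImplicit false

open Set Topology Cardinal

namespace Pool.Agent.Results.MP_3bf391_gt.HereditarilyMetalindelof

universe u

/-- `C_p(X)`: the continuous functions from `X` to the reals with the topology of pointwise
convergence, that is, the subspace topology inherited from the product `X → ℝ`. -/
abbrev Cp (X : Type u) [TopologicalSpace X] : Type u := {f : X → ℝ // Continuous f}

/-- A space is metalindelof if every open cover has a point-countable open refinement. -/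
def Metalindelof (Z : Type u) [TopologicalSpace Z] : Prop :=
  ∀ 𝒰 : Set (Set Z), (∀ U ∈ 𝒰, IsOpen U) → ⋃₀ 𝒰 = Set.univ →
    ∃ 𝒱 : Set (Set Z), (∀ V ∈ 𝒱, IsOpen V) ∧ ⋃₀ 𝒱 = Set.univ ∧ (∀ V ∈ 𝒱, ∃ U ∈ 𝒰, V ⊆ U) ∧
      ∀ z : Z, {V ∈ 𝒱 | z ∈ V}.Countable

section

variable {X : Type u} [TopologicalSpace X]

/-- Basic open sets of `C_p(X)` with rational data. -/
def B (u : List (X × ℚ × ℚ)) : Set (Cp X) :=
  {y | ∀ t ∈ u, (t.2.1 : ℝ) < y.1 t.1 ∧ y.1 t.1 < (t.2.2 : ℝ)}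

theorem continuous_eval (x : X) : Continuous fun y : Cp X => y.1 x :=
  (continuous_apply x).comp continuous_subtype_val

theorem isOpen_B (u : List (X × ℚ × ℚ)) : IsOpen (B u) := by
  have h : B u = ⋂ t ∈ {t | t ∈ u}, {y : Cp X | (t.2.1 : ℝ) < y.1 t.1 ∧ y.1 t.1 < (t.2.2 : ℝ)} := by
    ext y; simp [B]
  rw [h]
  refine Set.Finite.isOpen_biInter (List.finite_toSet u) ?_
  intro t _
  exact (isOpen_lt continuous_const (continuous_eval t.1)).inter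
    (isOpen_lt (continuous_eval t.1) continuous_const)

theorem exists_B {O : Set (Cp X)} (hO : IsOpen O) {f : Cp X} (hf : f ∈ O) :
    ∃ u : List (X × ℚ × ℚ), f ∈ B u ∧ B u ⊆ O := by
  obtain ⟨O', hO', rfl⟩ := isOpen_induced_iff.1 hO
  obtain ⟨I, v, hv, hI⟩ := isOpen_pi_iff.1 hO' f.1 hf
  have h1 : ∀ a : X, ∃ q : ℚ × ℚ, a ∈ I → ((q.1 : ℝ) < f.1 a ∧ f.1 a < (q.2 : ℝ) ∧
      Ioo (q.1 : ℝ) (q.2 : ℝ) ⊆ v a) := by
    intro a
    by_cases ha : a ∈ I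
    · obtain ⟨ho, hm⟩ := hv a ha
      obtain ⟨ε, hε, hball⟩ := Metric.isOpen_iff.1 ho _ hm
      obtain ⟨q, hq1, hq2⟩ := exists_rat_btwn (show f.1 a - ε < f.1 a by linarith)
      obtain ⟨q', hq1', hq2'⟩ := exists_rat_btwn (show f.1 a < f.1 a + ε by linarith)
      refine ⟨(q, q'), fun _ => ⟨hq2, hq1', ?_⟩⟩
      intro z hz
      apply hball
      rw [Metric.mem_ball, Real.dist_eq, abs_lt]
      constructor <;> linarith [hz.1, hz.2]
    · exact ⟨(0, 0), fun h => absurd h ha⟩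
  choose q hq using h1
  refine ⟨I.toList.map fun a => (a, (q a).1, (q a).2), ?_, ?_⟩
  · intro t ht
    obtain ⟨a, ha, rfl⟩ := List.mem_map.1 ht
    have := hq a (Finset.mem_toList.1 ha)
    exact ⟨this.1, this.2.1⟩
  · intro y hy
    apply hI
    intro a ha
    have h2 := hy (a, (q a).1, (q a).2)
      (List.mem_map.2 ⟨a, Finset.mem_toList.2 (Finset.mem_coe.1 ha), rfl⟩)
    exact (hq a (Finset.mem_coe.1 ha)).2.2 ⟨h2.1, h2.2⟩

/-- Open boxes of `X` cut out by finitely many functions of `s` with rational bounds. -/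
def boxes (s : Set (Cp X)) : Set (Set X) :=
  {W | ∃ l : List (Cp X × ℚ × ℚ), (∀ e ∈ l, e.1 ∈ s) ∧
    W = {x | ∀ e ∈ l, (e.2.1 : ℝ) < e.1.1 x ∧ e.1.1 x < (e.2.2 : ℝ)}}

/-- A list of points with rational intervals matches a list of boxes with rational intervals. -/
def Match (u : List (X × ℚ × ℚ)) (c : List (Set X × ℚ × ℚ)) : Prop :=
  List.Forall₂ (fun t e => t.1 ∈ e.1 ∧ t.2 = e.2) u c

open Classical in
/-- Choice of a matching member of `𝒰`. -/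
noncomputable def sel (𝒰 : Set (List (X × ℚ × ℚ))) (c : List (Set X × ℚ × ℚ)) :
    List (X × ℚ × ℚ) :=
  if h : ∃ u ∈ 𝒰, Match u c then h.choose else []

omit [TopologicalSpace X] in
theorem sel_spec {𝒰 : Set (List (X × ℚ × ℚ))} {c : List (Set X × ℚ × ℚ)}
    (h : ∃ u ∈ 𝒰, Match u c) : sel 𝒰 c ∈ 𝒰 ∧ Match (sel 𝒰 c) c := by
  unfold sel
  rw [dif_pos h]
  exact h.choose_spec

/-- The chosen members of `𝒰` for the boxes coming from `s`. -/
def Psi (𝒰 : Set (List (X × ℚ × ℚ))) (s : Set (Cp X)) : Set (List (X × ℚ × ℚ)) :=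
  {u | ∃ c : List (Set X × ℚ × ℚ), (∀ e ∈ c, e.1 ∈ boxes s) ∧ (∃ u' ∈ 𝒰, Match u' c) ∧
    u = sel 𝒰 c}

theorem Psi_sub (𝒰 : Set (List (X × ℚ × ℚ))) (s : Set (Cp X)) : Psi 𝒰 s ⊆ 𝒰 := by
  rintro u ⟨c, -, h, rfl⟩
  exact (sel_spec h).1

theorem boxes_mono {s t : Set (Cp X)} (h : s ⊆ t) : boxes s ⊆ boxes t := by
  rintro W ⟨l, hl, rfl⟩
  exact ⟨l, fun e he => h (hl e he), rfl⟩

theorem Psi_mono (𝒰 : Set (List (X × ℚ × ℚ))) {s t : Set (Cp X)} (h : s ⊆ t) :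
    Psi 𝒰 s ⊆ Psi 𝒰 t := by
  rintro u ⟨c, hc, h', rfl⟩
  exact ⟨c, fun e he => boxes_mono h (hc e he), h', rfl⟩

theorem boxes_fin {s : Set (Cp X)} {W : Set X} (h : W ∈ boxes s) :
    ∃ t : Finset (Cp X), (t : Set (Cp X)) ⊆ s ∧ W ∈ boxes (t : Set (Cp X)) := by
  classical
  obtain ⟨l, hl, rfl⟩ := h
  refine ⟨(l.map Prod.fst).toFinset, ?_, l, ?_, rfl⟩
  · intro g hg
    obtain ⟨e, he, rfl⟩ := List.mem_map.1 (List.mem_toFinset.1 (Finset.mem_coe.1 hg))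
    exact hl e he
  · intro e he
    exact Finset.mem_coe.2 (List.mem_toFinset.2 (List.mem_map.2 ⟨e, he, rfl⟩))

theorem Psi_fin {𝒰 : Set (List (X × ℚ × ℚ))} {s : Set (Cp X)} {u : List (X × ℚ × ℚ)}
    (h : u ∈ Psi 𝒰 s) :
    ∃ t : Finset (Cp X), (t : Set (Cp X)) ⊆ s ∧ u ∈ Psi 𝒰 (t : Set (Cp X)) := by
  classical
  obtain ⟨c, hc, h', rfl⟩ := h
  have key : ∀ c : List (Set X × ℚ × ℚ), (∀ e ∈ c, e.1 ∈ boxes s) →
      ∃ t : Finset (Cp X), (t : Set (Cp X)) ⊆ s ∧ ∀ e ∈ c, e.1 ∈ boxes (t : Set (Cp X)) := by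
    intro c
    induction c with
    | nil => intro _; exact ⟨∅, by simp, by simp⟩
    | cons a c ih =>
      intro hc
      obtain ⟨t, ht, ht'⟩ := ih fun e he => hc e (List.mem_cons_of_mem _ he)
      obtain ⟨t2, ht2, ht2'⟩ := boxes_fin (hc a List.mem_cons_self)
      refine ⟨t ∪ t2, ?_, ?_⟩
      · intro g hg
        rw [Finset.coe_union] at hg
        rcases hg with hg | hg
        · exact ht hg
        · exact ht2 hg
      · intro e he
        rcases List.mem_cons.1 he with rfl | he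
        · exact boxes_mono (by rw [Finset.coe_union]; exact subset_union_right) ht2'
        · exact boxes_mono (by rw [Finset.coe_union]; exact subset_union_left) (ht' e he)
  obtain ⟨t, ht, ht'⟩ := key c hc
  exact ⟨t, ht, c, ht', h', rfl⟩

theorem mk_boxes_le (s : Set (Cp X)) : #(boxes s) ≤ max ℵ₀ #s := by
  have hsurj : ∃ F : List (s × ℚ × ℚ) → boxes s, Function.Surjective F := by
    refine ⟨fun l => ⟨{x | ∀ e ∈ l, (e.2.1 : ℝ) < e.1.1.1 x ∧ e.1.1.1 x < (e.2.2 : ℝ)},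
      l.map (fun e => (e.1.1, e.2)), ?_, ?_⟩, ?_⟩
    · intro e he
      obtain ⟨a, _, rfl⟩ := List.mem_map.1 he
      exact a.1.2
    · ext x
      constructor
      · intro h e he
        obtain ⟨a, ha, rfl⟩ := List.mem_map.1 he
        exact h a ha
      · intro h e he
        exact h (e.1.1, e.2) (List.mem_map.2 ⟨e, he, rfl⟩)
    · rintro ⟨W, l, hl, rfl⟩
      refine ⟨l.attach.map fun e => (⟨e.1.1, hl e.1 e.2⟩, e.1.2), ?_⟩
      apply Subtype.ext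
      ext x
      constructor
      · intro h e he
        exact h (⟨e.1, hl e he⟩, e.2) (List.mem_map.2 ⟨⟨e, he⟩, List.mem_attach _ _, rfl⟩)
      · intro h e he
        obtain ⟨a, _, rfl⟩ := List.mem_map.1 he
        exact h a.1 a.2
  obtain ⟨F, hF⟩ := hsurj
  calc #(boxes s) ≤ #(List (s × ℚ × ℚ)) := mk_le_of_surjective hF
    _ ≤ max ℵ₀ #(s × ℚ × ℚ) := mk_list_le_max _
    _ ≤ max ℵ₀ #s := by
        apply max_le (le_max_left _ _)
        have h1 : #(ℚ × ℚ) = ℵ₀ := mk_eq_aleph0 _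
        rw [mk_prod, h1, lift_uzero, lift_aleph0]
        exact (mul_le_max_of_aleph0_le_right le_rfl).trans (by rw [max_comm])

/-- The union of `A` with the functions `z p` for the points `p` of the chosen members. -/
def step (𝒰 : Set (List (X × ℚ × ℚ))) (z : X → Cp X) (A : Set (Cp X)) : Set (Cp X) :=
  A ∪ {g | ∃ u ∈ Psi 𝒰 A, ∃ t ∈ u, g = z t.1}

/-- Closedness of a family of functions under the choice. -/
def Closed (𝒰 : Set (List (X × ℚ × ℚ))) (z : X → Cp X) (G : Set (Cp X)) : Prop :=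
  ∀ u ∈ Psi 𝒰 G, ∀ t ∈ u, z t.1 ∈ G

/-- The closure. -/
def clo (𝒰 : Set (List (X × ℚ × ℚ))) (z : X → Cp X) (A : Set (Cp X)) : Set (Cp X) :=
  ⋃ n : ℕ, (step 𝒰 z)^[n] A

theorem mk_Psi_le (𝒰 : Set (List (X × ℚ × ℚ))) (s : Set (Cp X)) : #(Psi 𝒰 s) ≤ max ℵ₀ #s := by
  have h1 : Psi 𝒰 s ⊆ range fun l : List (boxes s × ℚ × ℚ) =>
      sel 𝒰 (l.map fun e => ((e.1 : Set X), e.2)) := by
    rintro u ⟨c, hc, -, rfl⟩
    refine ⟨c.attach.map fun e => (⟨e.1.1, hc e.1 e.2⟩, e.1.2), ?_⟩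
    simp only [List.map_map]
    congr 1
    conv_rhs => rw [← List.attach_map_subtype_val c]
    rfl
  calc #(Psi 𝒰 s) ≤ #(range fun l : List (boxes s × ℚ × ℚ) =>
      sel 𝒰 (l.map fun e => ((e.1 : Set X), e.2))) := mk_le_mk_of_subset h1
    _ ≤ #(List (boxes s × ℚ × ℚ)) := mk_range_le
    _ ≤ max ℵ₀ #(boxes s × ℚ × ℚ) := mk_list_le_max _
    _ ≤ max ℵ₀ #(boxes s) := by
        apply max_le (le_max_left _ _)
        have h1 : #(ℚ × ℚ) = ℵ₀ := mk_eq_aleph0 _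
        rw [mk_prod, h1, lift_uzero, lift_aleph0]
        exact (mul_le_max_of_aleph0_le_right le_rfl).trans (by rw [max_comm])
    _ ≤ max ℵ₀ #s := max_le (le_max_left _ _) (mk_boxes_le s)

theorem mk_step_le (𝒰 : Set (List (X × ℚ × ℚ))) (z : X → Cp X) (A : Set (Cp X)) :
    #(step 𝒰 z A) ≤ max ℵ₀ #A := by
  have h1 : {g | ∃ u ∈ Psi 𝒰 A, ∃ t ∈ u, g = z t.1} ⊆
      ⋃ u : Psi 𝒰 A, {g | ∃ t ∈ u.1, g = z t.1} := by
    rintro g ⟨u, hu, t, ht, rfl⟩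
    exact mem_iUnion.2 ⟨⟨u, hu⟩, t, ht, rfl⟩
  have h2 : ∀ u : Psi 𝒰 A, #({g | ∃ t ∈ u.1, g = z t.1} : Set (Cp X)) ≤ ℵ₀ := by
    intro u
    have : ({g | ∃ t ∈ u.1, g = z t.1} : Set (Cp X)).Finite := by
      have : ({g | ∃ t ∈ u.1, g = z t.1} : Set (Cp X)) = (fun t => z t.1) '' {t | t ∈ u.1} := by
        ext g
        constructor
        · rintro ⟨t, ht, rfl⟩
          exact ⟨t, ht, rfl⟩
        · rintro ⟨t, ht, rfl⟩
          exact ⟨t, ht, rfl⟩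
      rw [this]
      exact (List.finite_toSet _).image _
    exact this.countable.le_aleph0
  have h3 : #({g | ∃ u ∈ Psi 𝒰 A, ∃ t ∈ u, g = z t.1} : Set (Cp X)) ≤ max ℵ₀ #A := by
    calc _ ≤ #(⋃ u : Psi 𝒰 A, ({g | ∃ t ∈ u.1, g = z t.1} : Set (Cp X))) := mk_le_mk_of_subset h1
      _ ≤ #(Psi 𝒰 A) * ⨆ u : Psi 𝒰 A, #({g | ∃ t ∈ u.1, g = z t.1} : Set (Cp X)) :=
          mk_iUnion_le _
      _ ≤ max ℵ₀ #A * ℵ₀ := mul_le_mul' (mk_Psi_le 𝒰 A) (ciSup_le' h2)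
      _ = max ℵ₀ #A := mul_aleph0_eq (le_max_left _ _)
  calc #(step 𝒰 z A) ≤ #A + #({g | ∃ u ∈ Psi 𝒰 A, ∃ t ∈ u, g = z t.1} : Set (Cp X)) :=
        mk_union_le _ _
    _ ≤ max ℵ₀ #A + max ℵ₀ #A := add_le_add (le_max_right _ _) h3
    _ = max ℵ₀ #A := add_eq_self (le_max_left _ _)

theorem subset_step (𝒰 : Set (List (X × ℚ × ℚ))) (z : X → Cp X) (A : Set (Cp X)) :
    A ⊆ step 𝒰 z A := subset_union_left

theorem step_iter_mono (𝒰 : Set (List (X × ℚ × ℚ))) (z : X → Cp X) (A : Set (Cp X)) :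
    Monotone fun n : ℕ => (step 𝒰 z)^[n] A := by
  apply monotone_nat_of_le_succ
  intro n
  rw [Function.iterate_succ_apply']
  exact subset_step _ _ _

theorem subset_clo (𝒰 : Set (List (X × ℚ × ℚ))) (z : X → Cp X) (A : Set (Cp X)) :
    A ⊆ clo 𝒰 z A := subset_iUnion (fun n : ℕ => (step 𝒰 z)^[n] A) 0

theorem mk_clo_le (𝒰 : Set (List (X × ℚ × ℚ))) (z : X → Cp X) (A : Set (Cp X)) :
    #(clo 𝒰 z A) ≤ max ℵ₀ #A := by
  have h : ∀ n : ℕ, #((step 𝒰 z)^[n] A) ≤ max ℵ₀ #A := by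
    intro n
    induction n with
    | zero => exact le_max_right _ _
    | succ n ih =>
      rw [Function.iterate_succ_apply']
      exact (mk_step_le 𝒰 z _).trans (max_le (le_max_left _ _) ih)
  have h2 := mk_iUnion_le_lift (fun n : ℕ => (step 𝒰 z)^[n] A)
  rw [lift_uzero, mk_nat, lift_aleph0] at h2
  refine h2.trans ?_
  calc ℵ₀ * (⨆ i : ℕ, lift.{0} #((step 𝒰 z)^[i] A)) ≤ max ℵ₀ #A * max ℵ₀ #A := by
        apply mul_le_mul' (le_max_left _ _)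
        apply ciSup_le'
        intro i
        rw [lift_uzero]
        exact h i
    _ = max ℵ₀ #A := mul_eq_self (le_max_left _ _)

theorem clo_closed (𝒰 : Set (List (X × ℚ × ℚ))) (z : X → Cp X) (A : Set (Cp X)) :
    Closed 𝒰 z (clo 𝒰 z A) := by
  intro u hu t ht
  obtain ⟨s, hs, hu'⟩ := Psi_fin hu
  obtain ⟨n, hn⟩ := (step_iter_mono 𝒰 z A).directed_le.exists_mem_subset_of_finset_subset_biUnion
    (by simpa [clo] using hs)
  refine mem_iUnion.2 ⟨n + 1, ?_⟩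
  rw [Function.iterate_succ_apply']
  exact Or.inr ⟨u, Psi_mono 𝒰 hn hu', t, ht, rfl⟩

theorem clo_subset {𝒰 : Set (List (X × ℚ × ℚ))} {z : X → Cp X} {A G : Set (Cp X)} (h : A ⊆ G)
    (hG : Closed 𝒰 z G) : clo 𝒰 z A ⊆ G := by
  refine iUnion_subset fun n => ?_
  induction n with
  | zero => exact h
  | succ n ih =>
    rw [Function.iterate_succ_apply']
    refine union_subset ih ?_
    rintro g ⟨u, hu, t, ht, rfl⟩
    exact hG u (Psi_mono 𝒰 ih hu) t ht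

theorem clo_mono (𝒰 : Set (List (X × ℚ × ℚ))) (z : X → Cp X) {A A' : Set (Cp X)} (h : A ⊆ A') :
    clo 𝒰 z A ⊆ clo 𝒰 z A' :=
  clo_subset (h.trans (subset_clo _ _ _)) (clo_closed _ _ _)

/-- Compactness: if `f` is constant on the `G`-fibre of `p`, then a box from `G` around `p` is
mapped by `f` into a given interval around `f p`. -/
theorem exists_box [CompactSpace X] {G : Set (Cp X)} {p : X} {f : Cp X} {a b : ℚ}
    (ha : (a : ℝ) < f.1 p) (hb : f.1 p < (b : ℝ))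
    (h : ∀ x, (∀ g ∈ G, g.1 x = g.1 p) → f.1 x = f.1 p) :
    ∃ W ∈ boxes G, p ∈ W ∧ ∀ x ∈ W, (a : ℝ) < f.1 x ∧ f.1 x < (b : ℝ) := by
  classical
  have hK : IsCompact {x | f.1 x ≤ (a : ℝ) ∨ (b : ℝ) ≤ f.1 x} :=
    ((isClosed_le f.2 continuous_const).union (isClosed_le continuous_const f.2)).isCompact
  have h1 : ∀ x ∈ {x | f.1 x ≤ (a : ℝ) ∨ (b : ℝ) ≤ f.1 x}, ∃ e : Cp X × ℚ × ℚ, e.1 ∈ G ∧
      (e.2.1 : ℝ) < e.1.1 p ∧ e.1.1 p < (e.2.2 : ℝ) ∧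
      (e.1.1 x < (e.2.1 : ℝ) ∨ (e.2.2 : ℝ) < e.1.1 x) := by
    intro x hx
    have h2 : ∃ g ∈ G, g.1 x ≠ g.1 p := by
      by_contra hcon
      push Not at hcon
      have := h x hcon
      rcases hx with hx | hx
      · linarith
      · linarith
    obtain ⟨g, hg, hne⟩ := h2
    rcases lt_or_gt_of_ne hne with hlt | hlt
    · obtain ⟨q, hq1, hq2⟩ := exists_rat_btwn hlt
      obtain ⟨q', hq'⟩ := exists_rat_gt (g.1 p)
      exact ⟨(g, q, q'), hg, hq2, hq', Or.inl hq1⟩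
    · obtain ⟨q, hq1, hq2⟩ := exists_rat_btwn hlt
      obtain ⟨q', hq'⟩ := exists_rat_lt (g.1 p)
      exact ⟨(g, q', q), hg, hq', hq1, Or.inr hq2⟩
  have hne : Nonempty (Cp X) := ⟨f⟩
  choose! e he1 he2 he3 he4 using h1
  obtain ⟨t, ht, htc⟩ := hK.elim_nhds_subcover
    (fun x => {y | (e x).1.1 y < ((e x).2.1 : ℝ) ∨ ((e x).2.2 : ℝ) < (e x).1.1 y}) (by
      intro x hx
      apply IsOpen.mem_nhds
      · exact (isOpen_lt (e x).1.2 continuous_const).union (isOpen_lt continuous_const (e x).1.2)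
      · exact he4 x hx)
  refine ⟨{x | ∀ d ∈ t.toList.map e, (d.2.1 : ℝ) < d.1.1 x ∧ d.1.1 x < (d.2.2 : ℝ)},
    ⟨t.toList.map e, ?_, rfl⟩, ?_, ?_⟩
  · intro d hd
    obtain ⟨x, hx, rfl⟩ := List.mem_map.1 hd
    exact he1 x (ht x (Finset.mem_toList.1 hx))
  · intro d hd
    obtain ⟨x, hx, rfl⟩ := List.mem_map.1 hd
    exact ⟨he2 x (ht x (Finset.mem_toList.1 hx)), he3 x (ht x (Finset.mem_toList.1 hx))⟩
  · intro x hx
    by_contra hcon
    have hxK : x ∈ {x | f.1 x ≤ (a : ℝ) ∨ (b : ℝ) ≤ f.1 x} := by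
      by_contra h3
      apply hcon
      have h4 : ¬ (f.1 x ≤ (a : ℝ)) := fun h5 => h3 (Or.inl h5)
      have h6 : ¬ ((b : ℝ) ≤ f.1 x) := fun h5 => h3 (Or.inr h5)
      exact ⟨not_le.1 h4, not_le.1 h6⟩
    obtain ⟨w, hw, hxw⟩ := mem_iUnion₂.1 (htc hxK)
    have := hx (e w) (List.mem_map.2 ⟨w, Finset.mem_toList.2 hw, rfl⟩)
    rcases hxw with h5 | h5
    · exact absurd this.1 (not_lt.2 h5.le)
    · exact absurd this.2 (not_lt.2 h5.le)

omit [TopologicalSpace X] in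
theorem Match.exists_of_mem {u : List (X × ℚ × ℚ)} {c : List (Set X × ℚ × ℚ)} (h : Match u c) :
    ∀ t ∈ u, ∃ e ∈ c, t.1 ∈ e.1 ∧ t.2 = e.2 := by
  induction h with
  | nil => simp
  | cons hab _ ih =>
    intro t ht
    rcases List.mem_cons.1 ht with rfl | ht
    · exact ⟨_, List.mem_cons_self, hab⟩
    · obtain ⟨e, he, h'⟩ := ih t ht
      exact ⟨e, List.mem_cons_of_mem _ he, h'⟩

/-- Reflection: a function in `B u`, `u ∈ 𝒰`, that lies in no `B u'` with `u'` chosen from `G`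
is not constant on the `G`-fibre of some point of `u`. -/
theorem reflection [CompactSpace X] {𝒰 : Set (List (X × ℚ × ℚ))} {G : Set (Cp X)}
    {u : List (X × ℚ × ℚ)} (hu : u ∈ 𝒰) {f : Cp X} (hf : f ∈ B u)
    (hG : ∀ u' ∈ Psi 𝒰 G, f ∉ B u') :
    ∃ t ∈ u, ∃ x, (∀ g ∈ G, g.1 x = g.1 t.1) ∧ f.1 x ≠ f.1 t.1 := by
  by_contra hcon
  push Not at hcon
  have h1 : ∀ t ∈ u, ∃ W ∈ boxes G, t.1 ∈ W ∧ ∀ x ∈ W, (t.2.1 : ℝ) < f.1 x ∧ f.1 x < (t.2.2 : ℝ) :=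
    fun t ht => exists_box (hf t ht).1 (hf t ht).2 (hcon t ht)
  choose! W hW1 hW2 hW3 using h1
  have hm : Match u (u.map fun t => (W t, t.2)) := by
    unfold Match
    rw [List.forall₂_map_right_iff, List.forall₂_same]
    exact fun t ht => ⟨hW2 t ht, rfl⟩
  have hex : ∃ u' ∈ 𝒰, Match u' (u.map fun t => (W t, t.2)) := ⟨u, hu, hm⟩
  obtain ⟨-, hm'⟩ := sel_spec hex
  refine hG (sel 𝒰 (u.map fun t => (W t, t.2))) ⟨_, ?_, hex, rfl⟩ ?_
  · intro e he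
    obtain ⟨t, ht, rfl⟩ := List.mem_map.1 he
    exact hW1 t ht
  · intro t' ht'
    obtain ⟨e, he, h3, h4⟩ := hm'.exists_of_mem t' ht'
    obtain ⟨t, ht, rfl⟩ := List.mem_map.1 he
    have h5 := hW3 t ht t'.1 h3
    rw [h4]
    exact h5

end

section

variable {X : Type u} [TopologicalSpace X] [CompactSpace X] [T2Space X] [PerfectlyNormalSpace X]

theorem exists_zero (p : X) : ∃ h : Cp X, ∀ x, h.1 x = 0 ↔ x = p := by
  obtain ⟨f, hf, -, -, -⟩ := exists_continuous_one_zero_of_isCompact_of_isGδ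
    (isCompact_singleton (x := p)) (isClosed_singleton (x := p)).isGδ isClosed_empty
    (disjoint_empty _)
  refine ⟨⟨fun x => f x - 1, f.continuous.sub continuous_const⟩, fun x => ?_⟩
  have h1 : x ∈ ({p} : Set X) ↔ f x = 1 := by
    rw [hf]; rfl
  rw [mem_singleton_iff] at h1
  rw [h1]
  exact sub_eq_zero

/-- A continuous function vanishing exactly at `p`. -/
noncomputable def zf (p : X) : Cp X := (exists_zero p).choose

theorem zf_spec (p x : X) : (zf p).1 x = 0 ↔ x = p := (exists_zero p).choose_spec x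

theorem local_base {p : X} {W : Set X} (hW : IsOpen W) (hp : p ∈ W) :
    ∃ ε > 0, ∀ x, |(zf p).1 x| < ε → x ∈ W := by
  rcases (Wᶜ).eq_empty_or_nonempty with h | h
  · refine ⟨1, one_pos, fun x _ => ?_⟩
    rw [compl_empty_iff] at h
    rw [h]; trivial
  · obtain ⟨x0, hx0, hmin⟩ := hW.isClosed_compl.isCompact.exists_isMinOn h
      ((zf p).2.abs.continuousOn)
    refine ⟨|(zf p).1 x0|, ?_, fun x hx => ?_⟩
    · apply abs_pos.2
      intro h0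
      rw [zf_spec] at h0
      subst h0
      exact hx0 hp
    · by_contra hxW
      exact absurd (hmin hxW) (not_le.2 hx)

omit [T2Space X] in
/-- Hereditary Lindelof property of perfectly normal compacta. -/
theorem countable_subfamily {ι : Type*} (O : ι → Set X) (hO : ∀ i, IsOpen (O i)) :
    ∃ C : Set ι, C.Countable ∧ (⋃ i, O i) ⊆ ⋃ i ∈ C, O i := by
  have h1 : IsGδ (⋃ i, O i)ᶜ := ((isOpen_iUnion hO).isClosed_compl).isGδ
  obtain ⟨U, hU, hUe⟩ := h1.eq_iInter_nat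
  have h2 : ∀ n, ∃ t : Finset ι, (U n)ᶜ ⊆ ⋃ i ∈ t, O i := by
    intro n
    refine (hU n).isClosed_compl.isCompact.elim_finite_subcover O hO ?_
    rw [← compl_subset_compl, compl_compl, hUe]
    exact iInter_subset U n
  choose t ht using h2
  refine ⟨⋃ n, (t n : Set ι), countable_iUnion fun n => (t n).countable_toSet, ?_⟩
  intro x hx
  have h3 : x ∉ (⋃ i, O i)ᶜ := fun h => h hx
  rw [hUe, mem_iInter, not_forall] at h3
  obtain ⟨n, hn⟩ := h3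
  obtain ⟨i, hi, hxi⟩ := mem_iUnion₂.1 (ht n hn)
  exact mem_iUnion₂.2 ⟨i, mem_iUnion.2 ⟨n, hi⟩, hxi⟩

/-- Key lemma: along a well-ordered increasing chain of families only countably many levels can be
seen by an open set `W`. -/
theorem countable_of_open {ι : Type*} [LinearOrder ι] [WellFoundedLT ι] (G : ι → Set (Cp X))
    {W : Set X} (hW : IsOpen W) (T : Set ι) (p x : ι → X) (hp : ∀ a ∈ T, p a ∈ W)
    (hx : ∀ a ∈ T, x a ∉ W) (hz : ∀ a ∈ T, zf (p a) ∈ G a)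
    (hxp : ∀ a ∈ T, ∀ b, b < a → ∀ g ∈ G b, g.1 (x a) = g.1 (p a)) : T.Countable := by
  classical
  have h1 : ∀ a ∈ T, ∃ ε > 0, ∀ y, |(zf (p a)).1 y| < ε → y ∈ W := fun a ha =>
    local_base hW (hp a ha)
  choose! ε hε hεW using h1
  have hsep : ∀ a ∈ T, ∀ b ∈ T, a < b → ¬ |(zf (p a)).1 (p b)| < ε a := by
    intro a ha b hb hab hlt
    apply hx b hb
    apply hεW a ha
    rw [hxp b hb a hab _ (hz a ha)]
    exact hlt
  have h2 : {a ∈ T | {b ∈ T | b < a}.Countable}.Countable := by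
    obtain ⟨C, hC, hCc⟩ := countable_subfamily
      (fun a : {a ∈ T | {b ∈ T | b < a}.Countable} => {y | |(zf (p a.1)).1 y| < ε a.1})
      (fun a => isOpen_lt (zf (p a.1)).2.abs continuous_const)
    have h3 : {a ∈ T | {b ∈ T | b < a}.Countable} ⊆
        ⋃ a ∈ C, ({b ∈ T | b < a.1} ∪ {a.1}) := by
      intro b hb
      have h4 : p b ∈ ⋃ i : {a ∈ T | {b ∈ T | b < a}.Countable},
          {y | |(zf (p i.1)).1 y| < ε i.1} := by
        refine mem_iUnion.2 ⟨⟨b, hb⟩, ?_⟩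
        have h5 : (zf (p b)).1 (p b) = 0 := (zf_spec _ _).2 rfl
        show |(zf (p b)).1 (p b)| < ε b
        rw [h5, abs_zero]
        exact hε b hb.1
      obtain ⟨a, haC, ha⟩ := mem_iUnion₂.1 (hCc h4)
      refine mem_iUnion₂.2 ⟨a, haC, ?_⟩
      rcases lt_trichotomy b a.1 with h | h | h
      · exact Or.inl ⟨hb.1, h⟩
      · exact Or.inr h
      · exact absurd ha (hsep a.1 a.2.1 b hb.1 h)
    refine (hC.biUnion fun a _ => ?_).mono h3
    exact (a.2.2).union (countable_singleton _)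
  by_contra hT
  have h3 : (T \ {a ∈ T | {b ∈ T | b < a}.Countable}).Nonempty := by
    by_contra h4
    rw [not_nonempty_iff_eq_empty, sdiff_eq_empty] at h4
    exact hT (h2.mono h4)
  obtain ⟨a, ha, hmin⟩ := WellFounded.has_min (wellFounded_lt (α := ι)) _ h3
  apply ha.2
  refine ⟨ha.1, h2.mono ?_⟩
  intro b hb
  by_contra h5
  exact hmin b ⟨hb.1, h5⟩ hb.2

/-- Each continuous function sees only countably many levels of the chain. -/
theorem countable_seen {ι : Type*} [LinearOrder ι] [WellFoundedLT ι] (G : ι → Set (Cp X))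
    (y : Cp X) :
    {a : ι | ∃ p x : X, zf p ∈ G a ∧ (∀ b, b < a → ∀ g ∈ G b, g.1 x = g.1 p) ∧
      y.1 x ≠ y.1 p}.Countable := by
  classical
  have key : ∀ W : Set X, IsOpen W → {a : ι | ∃ p x : X, zf p ∈ G a ∧
      (∀ b, b < a → ∀ g ∈ G b, g.1 x = g.1 p) ∧ p ∈ W ∧ x ∉ W}.Countable := by
    intro W hW
    have h1 : ∀ a ∈ {a : ι | ∃ p x : X, zf p ∈ G a ∧
      (∀ b, b < a → ∀ g ∈ G b, g.1 x = g.1 p) ∧ p ∈ W ∧ x ∉ W}, ∃ q : X × X, zf q.1 ∈ G a ∧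
      (∀ b, b < a → ∀ g ∈ G b, g.1 q.2 = g.1 q.1) ∧ q.1 ∈ W ∧ q.2 ∉ W := by
      rintro a ⟨p, x, h⟩
      exact ⟨(p, x), h⟩
    rcases isEmpty_or_nonempty X with hX | hX
    · have : {a : ι | ∃ p x : X, zf p ∈ G a ∧
        (∀ b, b < a → ∀ g ∈ G b, g.1 x = g.1 p) ∧ p ∈ W ∧ x ∉ W} = ∅ := by
        ext a
        constructor
        · rintro ⟨p, _⟩
          exact (hX.false p).elim
        · intro h; exact h.elim
      rw [this]
      exact countable_empty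
    choose! q hq1 hq2 hq3 hq4 using h1
    exact countable_of_open G hW _ (fun a => (q a).1) (fun a => (q a).2) hq3 hq4 hq1 hq2
  have h2 : {a : ι | ∃ p x : X, zf p ∈ G a ∧ (∀ b, b < a → ∀ g ∈ G b, g.1 x = g.1 p) ∧
      y.1 x ≠ y.1 p} ⊆ ⋃ r : ℚ,
      ({a : ι | ∃ p x : X, zf p ∈ G a ∧ (∀ b, b < a → ∀ g ∈ G b, g.1 x = g.1 p) ∧
        p ∈ {w | (r : ℝ) < y.1 w} ∧ x ∉ {w | (r : ℝ) < y.1 w}} ∪
      {a : ι | ∃ p x : X, zf p ∈ G a ∧ (∀ b, b < a → ∀ g ∈ G b, g.1 x = g.1 p) ∧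
        p ∈ {w | y.1 w < (r : ℝ)} ∧ x ∉ {w | y.1 w < (r : ℝ)}}) := by
    rintro a ⟨p, x, h1, h2, h3⟩
    rcases lt_or_gt_of_ne h3 with h | h
    · obtain ⟨r, hr1, hr2⟩ := exists_rat_btwn h
      exact mem_iUnion.2 ⟨r, Or.inl ⟨p, x, h1, h2, hr2, not_lt.2 hr1.le⟩⟩
    · obtain ⟨r, hr1, hr2⟩ := exists_rat_btwn h
      exact mem_iUnion.2 ⟨r, Or.inr ⟨p, x, h1, h2, hr1, not_lt.2 hr2.le⟩⟩
  refine (countable_iUnion fun r => ?_).mono h2
  exact (key _ (isOpen_lt continuous_const y.2)).union (key _ (isOpen_lt y.2 continuous_const))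

theorem main (𝒰 : Set (List (X × ℚ × ℚ))) (κ : Cardinal.{u}) :
    ∀ G : Set (Cp X), #G = κ → Closed 𝒰 zf G →
      ∃ 𝒱 : Set (Set (Cp X)), (∀ V ∈ 𝒱, IsOpen V) ∧ (∀ V ∈ 𝒱, ∃ u ∈ Psi 𝒰 G, V ⊆ B u) ∧
        (∀ u ∈ Psi 𝒰 G, B u ⊆ ⋃₀ 𝒱) ∧ ∀ y : Cp X, {V ∈ 𝒱 | y ∈ V}.Countable := by
  classical
  induction κ using Cardinal.lt_wf.induction with
  | h κ ih =>
  intro G hGκ hG
  rcases le_or_gt #G ℵ₀ with hc | hc
  · have hP : (Psi 𝒰 G).Countable := by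
      rw [← le_aleph0_iff_set_countable]
      exact (mk_Psi_le 𝒰 G).trans (max_le le_rfl hc)
    refine ⟨B '' Psi 𝒰 G, ?_, ?_, ?_, ?_⟩
    · rintro V ⟨u, -, rfl⟩
      exact isOpen_B u
    · rintro V ⟨u, hu, rfl⟩
      exact ⟨u, hu, Subset.rfl⟩
    · intro u hu y hy
      exact ⟨B u, ⟨u, hu, rfl⟩, hy⟩
    · intro y
      exact (hP.image B).mono fun V hV => hV.1
  obtain ⟨ι, ⟨e⟩⟩ : ∃ ι : Type u, Nonempty (ι ≃ G) := ⟨G, ⟨Equiv.refl _⟩⟩
  have hιG : #ι = #G := mk_congr e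
  obtain ⟨lo, wf, hord⟩ := exists_ord_eq_type_lt ι
  have hne : Nonempty ι := by
    rw [← mk_ne_zero_iff, hιG]
    exact (aleph0_pos.trans hc).ne'
  -- the chain of closed families
  let L : ι → Set (Cp X) := fun a => (fun i => (e i).1) '' (Iic a : Set ι)
  let H : ι → Set (Cp X) := fun a => clo 𝒰 zf (L a)
  have hL : ∀ a b : ι, a ≤ b → L a ⊆ L b := fun a b hab =>
    image_mono (Iic_subset_Iic.2 hab)
  have hH : ∀ a b : ι, a ≤ b → H a ⊆ H b := fun a b hab => clo_mono _ _ (hL a b hab)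
  have hLG : ∀ a, L a ⊆ G := by
    rintro a _ ⟨g, -, rfl⟩
    exact (e g).2
  have hHG : ∀ a, H a ⊆ G := fun a => clo_subset (hLG a) hG
  have hHc : ∀ a, Closed 𝒰 zf (H a) := fun a => clo_closed _ _ _
  have hcard : ∀ a, #(H a) < κ := by
    intro a
    have h1 : #(L a) < #G := by
      calc #(L a) ≤ #(Iic a : Set ι) := mk_image_le
        _ ≤ #(Iio a : Set ι) + 1 := by
            have : (Iic a : Set ι) = insert a (Iio a) := by
              rw [Iio_insert]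
            rw [this]
            exact mk_insert_le
        _ < #G := by
            rw [← hιG] at hc ⊢
            exact add_lt_of_lt hc.le (mk_Iio_lt a hord) (one_lt_aleph0.trans hc)
    rw [← hGκ]
    exact (mk_clo_le 𝒰 zf (L a)).trans_lt (max_lt hc h1)
  have hIH := fun a => ih #(H a) (hcard a) (H a) rfl (hHc a)
  choose 𝒱 hV1 hV2 hV3 hV4 using hIH
  choose! w hw1 hw2 using hV2
  let S : ι → X × ℚ × ℚ → Set (Cp X) := fun a t =>
    {y | ∃ x, (∀ b, b < a → ∀ g ∈ H b, g.1 x = g.1 t.1) ∧ y.1 x ≠ y.1 t.1}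
  have hS : ∀ a t, IsOpen (S a t) := by
    intro a t
    have h1 : S a t = ⋃ x ∈ {x | ∀ b, b < a → ∀ g ∈ H b, g.1 x = g.1 t.1},
        {y : Cp X | y.1 x ≠ y.1 t.1} := by
      ext y
      constructor
      · rintro ⟨x, h1, h2⟩
        exact mem_iUnion₂.2 ⟨x, h1, h2⟩
      · intro h
        obtain ⟨x, h1, h2⟩ := mem_iUnion₂.1 h
        exact ⟨x, h1, h2⟩
    rw [h1]
    exact isOpen_biUnion fun x _ => isOpen_ne_fun (continuous_eval x) (continuous_eval t.1)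
  refine ⟨(B '' Psi 𝒰 ∅) ∪ {V' | ∃ a, ∃ V ∈ 𝒱 a, ∃ t ∈ w a V, V' = V ∩ S a t}, ?_, ?_, ?_, ?_⟩
  · rintro V' (⟨u, -, rfl⟩ | ⟨a, V, hV, t, -, rfl⟩)
    · exact isOpen_B u
    · exact (hV1 a V hV).inter (hS a t)
  · rintro V' (⟨u, hu, rfl⟩ | ⟨a, V, hV, t, -, rfl⟩)
    · exact ⟨u, Psi_mono 𝒰 (empty_subset G) hu, Subset.rfl⟩
    · exact ⟨w a V, Psi_mono 𝒰 (hHG a) (hw1 a V hV), inter_subset_left.trans (hw2 a V hV)⟩
  · intro u hu f hf
    by_cases hf0 : ∃ u' ∈ Psi 𝒰 (∅ : Set (Cp X)), f ∈ B u'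
    · obtain ⟨u', hu', hfu'⟩ := hf0
      exact ⟨B u', Or.inl ⟨u', hu', rfl⟩, hfu'⟩
    have h1 : {a : ι | ∃ u' ∈ Psi 𝒰 (H a), f ∈ B u'}.Nonempty := by
      obtain ⟨s, hs, hus⟩ := Psi_fin hu
      have hdir : Directed (fun x1 x2 => x1 ⊆ x2) L := by
        intro a b
        exact ⟨max a b, hL _ _ (le_max_left _ _), hL _ _ (le_max_right _ _)⟩
      obtain ⟨a, ha⟩ := hdir.exists_mem_subset_of_finset_subset_biUnion (s := s) (by
        intro g hg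
        refine mem_iUnion.2 ⟨e.symm ⟨g, hs hg⟩, ⟨e.symm ⟨g, hs hg⟩, mem_Iic.2 le_rfl, ?_⟩⟩
        simp)
      exact ⟨a, u, Psi_mono 𝒰 (ha.trans (subset_clo _ _ _)) hus, hf⟩
    obtain ⟨a, ⟨u', hu', hfu'⟩, hmin⟩ := WellFounded.has_min (wellFounded_lt (α := ι)) _ h1
    obtain ⟨V, hV, hfV⟩ := hV3 a u' hu' hfu'
    have h2 : ∀ u'' ∈ Psi 𝒰 (⋃ b ∈ {b | b < a}, H b), f ∉ B u'' := by
      intro u'' hu'' hfu''
      obtain ⟨s, hs, hus⟩ := Psi_fin hu''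
      rcases {b : ι | b < a}.eq_empty_or_nonempty with h | h
      · rw [h] at hs
        simp only [mem_empty_iff_false, iUnion_of_empty, iUnion_empty] at hs
        exact hf0 ⟨u'', Psi_mono 𝒰 hs hus, hfu''⟩
      · have hdir : DirectedOn (fun i j => H i ⊆ H j) {b : ι | b < a} := by
          intro b hb c hc'
          exact ⟨max b c, max_lt hb hc', hH _ _ (le_max_left _ _), hH _ _ (le_max_right _ _)⟩
        obtain ⟨b, hb, hsb⟩ := hdir.exists_mem_subset_of_finset_subset_biUnion h hs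
        exact hmin b ⟨u'', Psi_mono 𝒰 hsb hus, hfu''⟩ hb
    obtain ⟨t, ht, x, hx, hne'⟩ := reflection (Psi_sub 𝒰 _ (hw1 a V hV)) (hw2 a V hV hfV) h2
    refine ⟨V ∩ S a t, Or.inr ⟨a, V, hV, t, ht, rfl⟩, hfV, x, ?_, hne'⟩
    intro b hb g hg
    exact hx g (mem_iUnion₂.2 ⟨b, hb, hg⟩)
  · intro y
    have h0 : (B '' Psi 𝒰 (∅ : Set (Cp X))).Countable := by
      apply Countable.image
      rw [← le_aleph0_iff_set_countable]
      refine (mk_Psi_le 𝒰 ∅).trans (max_le le_rfl ?_)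
      simp
    have hT := countable_seen H y
    refine (h0.union (hT.biUnion fun a _ => (hV4 a y).biUnion fun V _ =>
      ((List.finite_toSet (w a V)).image fun t => V ∩ S a t).countable)).mono ?_
    rintro V' ⟨(hV' | ⟨a, V, hV, t, ht, rfl⟩), hy⟩
    · exact Or.inl hV'
    · refine Or.inr (mem_iUnion₂.2 ⟨a, ?_, mem_iUnion₂.2 ⟨V, ⟨hV, hy.1⟩, ⟨t, ht, rfl⟩⟩⟩)
      obtain ⟨x, hx, hne'⟩ := hy.2
      exact ⟨t.1, x, hHc a _ (hw1 a V hV) t ht, hx, hne'⟩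

/-- Every family of open subsets of `C_p(X)` has a point-countable open refinement with the same
union. -/
theorem open_family (𝒪 : Set (Set (Cp X))) (h𝒪 : ∀ O ∈ 𝒪, IsOpen O) :
    ∃ 𝒱 : Set (Set (Cp X)), (∀ V ∈ 𝒱, IsOpen V) ∧ (∀ V ∈ 𝒱, ∃ O ∈ 𝒪, V ⊆ O) ∧
      ⋃₀ 𝒪 ⊆ ⋃₀ 𝒱 ∧ ∀ y : Cp X, {V ∈ 𝒱 | y ∈ V}.Countable := by
  obtain ⟨𝒱, h1, h2, h3, h4⟩ := main {u : List (X × ℚ × ℚ) | ∃ O ∈ 𝒪, B u ⊆ O}
    #(Set.univ : Set (Cp X)) Set.univ rfl (fun _ _ _ _ => mem_univ _)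
  refine ⟨𝒱, h1, ?_, ?_, h4⟩
  · intro V hV
    obtain ⟨u, hu, hVu⟩ := h2 V hV
    obtain ⟨O, hO, huO⟩ := Psi_sub _ _ hu
    exact ⟨O, hO, hVu.trans huO⟩
  · rintro f ⟨O, hO, hfO⟩
    obtain ⟨u, hfu, huO⟩ := exists_B (h𝒪 O hO) hfO
    by_contra hcon
    obtain ⟨t, _, x, hx, hne⟩ := reflection (𝒰 := {u : List (X × ℚ × ℚ) | ∃ O ∈ 𝒪, B u ⊆ O})
      (G := Set.univ) ⟨O, hO, huO⟩ hfu (fun u' hu' hf' => hcon (h3 u' hu' hf'))
    exact hne (hx f (mem_univ _))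

theorem subspace_metalindelof (Z : Set (Cp X)) : Metalindelof Z := by
  intro 𝒰 hU hcov
  obtain ⟨𝒱, h1, h2, h3, h4⟩ := open_family {O : Set (Cp X) | IsOpen O ∧
    ∃ U ∈ 𝒰, (Subtype.val ⁻¹' O : Set Z) ⊆ U} (fun O hO => hO.1)
  refine ⟨(fun V => (Subtype.val ⁻¹' V : Set Z)) '' 𝒱, ?_, ?_, ?_, ?_⟩
  · rintro _ ⟨V, hV, rfl⟩
    exact (h1 V hV).preimage continuous_subtype_val
  · rw [eq_univ_iff_forall]
    intro z
    have hz : z ∈ ⋃₀ 𝒰 := by rw [hcov]; exact mem_univ z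
    obtain ⟨U, hUm, hzU⟩ := hz
    obtain ⟨O, hO, rfl⟩ := isOpen_induced_iff.1 (hU U hUm)
    obtain ⟨V, hV, hzV⟩ := h3 ⟨O, ⟨hO, _, hUm, Subset.rfl⟩, hzU⟩
    exact ⟨_, ⟨V, hV, rfl⟩, hzV⟩
  · rintro _ ⟨V, hV, rfl⟩
    obtain ⟨O, ⟨_, U, hUm, hOU⟩, hVO⟩ := h2 V hV
    exact ⟨U, hUm, (preimage_mono hVO).trans hOU⟩
  · intro z
    refine ((h4 z.1).image fun V => (Subtype.val ⁻¹' V : Set Z)).mono ?_
    rintro _ ⟨⟨V, hV, rfl⟩, hz⟩
    exact ⟨V, ⟨hV, hz⟩, rfl⟩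

theorem whole_metalindelof : Metalindelof (Cp X) := by
  intro 𝒰 hU hcov
  obtain ⟨𝒱, h1, h2, h3, h4⟩ := open_family 𝒰 hU
  refine ⟨𝒱, h1, ?_, h2, h4⟩
  rw [hcov] at h3
  exact eq_univ_of_univ_subset h3

end

/-- For every perfectly normal compact Hausdorff space `X` the function space `C_p(X)` is
metalindelof, and in fact every subspace of `C_p(X)` is metalindelof. -/
theorem result (X : Type u) [TopologicalSpace X] [CompactSpace X] [T2Space X]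
    [PerfectlyNormalSpace X] :
    Metalindelof (Cp X) ∧ ∀ Z : Set (Cp X), Metalindelof Z :=
  ⟨whole_metalindelof, subspace_metalindelof⟩

end Pool.Agent.Results.MP_3bf391_gt.HereditarilyMetalindelof
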